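import Pool.Agent.H26.MQ.Defs

/-!
# Module GK: the Poisson integral of the kernel `gk`
-/

set_option autoImplicit false

open MeasureTheory Set

namespace Pool.Agent.H13.MQ

open Pool.Agent.H26.ML Pool.Agent.H26.MQ

lemma poi_even (c u : ℝ) : poi c (-u) = poi c u := by
  unfold poi
  rw [neg_sq]

theorem pf_gk (hPC : T_PC) : T_GK := by
  intro x δ N u hx hδ hN
  have hc : 0 < x + δ := by linarith
  set A : ℝ → ℝ := fun ξ => (1 - ξ / N) ^ 3 * Real.exp (x * ξ) with hA
  have hAc : Continuous A := by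
    rw [hA]
    fun_prop
  have hpc : Continuous fun y => poi (x + δ) (y - u) :=
    (poi_continuous hc).comp (continuous_id.sub continuous_const)
  have hpi : Integrable fun y => poi (x + δ) (y - u) := (poi_integrable hc).comp_sub_right u
  have hAi : Integrable A (volume.restrict (Ioc 0 N)) :=
    (hAc.continuousOn.integrableOn_Icc.mono_set Ioc_subset_Icc_self)
  have hprod : Integrable (fun z : ℝ × ℝ => poi (x + δ) (z.1 - u) * A z.2)
      (volume.prod (volume.restrict (Ioc 0 N))) := hpi.mul_prod hAi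
  have hprod2 : Integrable (fun z : ℝ × ℝ => Real.cos (z.2 * z.1) *
      (poi (x + δ) (z.1 - u) * A z.2)) (volume.prod (volume.restrict (Ioc 0 N))) := by
    refine hprod.bdd_mul (c := 1) ?_ ?_
    · exact (Real.continuous_cos.comp (continuous_snd.mul continuous_fst)).aestronglyMeasurable
    · exact Filter.Eventually.of_forall fun z => by
        rw [Real.norm_eq_abs]
        exact Real.abs_cos_le_one _
  have h1 : ∀ y : ℝ, gk x N y * poi (x + δ) (y - u) =
      Real.pi⁻¹ * ∫ ξ in Ioc 0 N, Real.cos (ξ * y) * (poi (x + δ) (y - u) * A ξ) := by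
    intro y
    unfold gk
    rw [intervalIntegral.integral_of_le hN.le, mul_assoc, ← integral_mul_const]
    congr 1
    refine integral_congr_ae (Filter.Eventually.of_forall fun ξ => ?_)
    simp only [hA]
    ring
  simp_rw [h1]
  rw [integral_const_mul]
  have hsw : ∫ y, ∫ ξ in Ioc 0 N, Real.cos (ξ * y) * (poi (x + δ) (y - u) * A ξ) =
      ∫ ξ in Ioc 0 N, ∫ y, Real.cos (ξ * y) * (poi (x + δ) (y - u) * A ξ) :=
    integral_integral_swap hprod2
  rw [hsw, intervalIntegral.integral_of_le hN.le, ← integral_const_mul]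
  refine setIntegral_congr_fun measurableSet_Ioc fun ξ hξ => ?_
  have h2 := (hPC (x + δ) ξ u hc hξ.1.le).2
  have h3 : ∫ y, Real.cos (ξ * y) * (poi (x + δ) (y - u) * A ξ) =
      A ξ * ∫ y, poi (x + δ) (u - y) * Real.cos (ξ * y) := by
    rw [← integral_const_mul]
    refine integral_congr_ae (Filter.Eventually.of_forall fun y => ?_)
    have : poi (x + δ) (y - u) = poi (x + δ) (u - y) := by
      rw [← poi_even, neg_sub]
    simp only [this]
    ring
  rw [h3, h2]
  have h4 : Real.exp (x * ξ) * Real.exp (-((x + δ) * ξ)) = Real.exp (-(δ * ξ)) := by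
    rw [← Real.exp_add]
    congr 1
    ring
  simp only [hA]
  have hpi0 := Real.pi_ne_zero
  calc Real.pi⁻¹ * ((1 - ξ / N) ^ 3 * Real.exp (x * ξ) *
        (Real.pi * Real.exp (-((x + δ) * ξ)) * Real.cos (ξ * u)))
      = (Real.pi⁻¹ * Real.pi) * ((1 - ξ / N) ^ 3 *
          (Real.exp (x * ξ) * Real.exp (-((x + δ) * ξ))) * Real.cos (ξ * u)) := by ring
    _ = _ := by rw [h4, inv_mul_cancel₀ hpi0, one_mul]

end Pool.Agent.H13.MQ
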